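import Pool.Agent.H71.CR.Stmt
import Pool.Agent.H41.CW.Dvp

/-!
# DVP: divisibility by the infinite symmetric group at a good piece
-/

set_option autoImplicit false

open Set Pool.Agent.TK Pool.Agent.H71.VK

namespace Pool.Agent.CR

open Pool.Agent.H41.HS (clo closed_isoH)
open Pool.Agent.H94.VK (isoH_fih)

theorem pf_DVP {C : Type} {c0 : C} (hGLA : T_GLA C c0) : T_DVP C c0 := by
  classical
  intro n M hM Sm G hG π hV hgood
  obtain ⟨Z, hZ, v, hvP, hv⟩ := GS.good hgood (dl π)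
  set P := st (bn M) π with hPdef
  set F := G.sup Z with hF
  -- elements of the group fixing `Z` preserve the piece
  have hP : ∀ p ∈ G.K, (∀ x ∈ Z, p.1 x = x) → p.1 '' P = P := fun p hp hfix =>
    st_fix p.1 (G.aut p hp) fun a ha => hfix a (hZ ha)
  have hP1 : ∀ p ∈ G.K, (∀ x ∈ Z, p.1 x = x) → ∀ x ∈ P, p.1 x ∈ P := fun p hp hfix x hx => by
    have h1 : p.1 x ∈ p.1 '' P := ⟨x, hx, rfl⟩
    rwa [hP p hp hfix] at h1
  have hmapZ : ∀ p ∈ G.K, (∀ x ∈ Z, p.1 x = x) → ∀ u, (u :: Z).map p.1 = p.1 u :: Z := by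
    intro p _ hfix u
    rw [List.map_cons]
    congr 1
    conv_rhs => rw [← List.map_id Z]
    exact List.map_congr_left hfix
  have heqv : ∀ p ∈ G.K, (∀ x ∈ Z, p.1 x = x) → ∀ u j, j ∈ G.sup (u :: Z) ↔
      p.2 j ∈ G.sup (p.1 u :: Z) := by
    intro p hp hfix u j
    rw [← hmapZ p hp hfix u]
    exact G.eqv p hp _ j
  let K2 : Subgroup (Equiv.Perm ℕ × Equiv.Perm ℕ) :=
    { carrier := {q | ∃ p ∈ G.K, (∀ x ∈ Z, p.1 x = x) ∧ (∀ j ∈ F, p.2 j = j) ∧
        (∀ x ∈ P, q.1 x = p.1 x) ∧ (∀ x, x ∉ P → q.1 x = x) ∧ q.2 = p.2}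
      one_mem' := ⟨1, G.K.one_mem, fun _ _ => rfl, fun _ _ => rfl, fun _ _ => rfl,
        fun _ _ => rfl, rfl⟩
      mul_mem' := by
        rintro q q' ⟨p, hp, a1, a2, a3, a4, a5⟩ ⟨p', hp', b1, b2, b3, b4, b5⟩
        refine ⟨p * p', G.K.mul_mem hp hp', fun x hx => ?_, fun x hx => ?_, fun x hx => ?_,
          fun x hx => ?_, ?_⟩
        · change p.1 (p'.1 x) = x
          rw [b1 x hx, a1 x hx]
        · change p.2 (p'.2 x) = x
          rw [b2 x hx, a2 x hx]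
        · change q.1 (q'.1 x) = p.1 (p'.1 x)
          rw [b3 x hx, a3 _ (hP1 p' hp' b1 x hx)]
        · change q.1 (q'.1 x) = x
          rw [b4 x hx, a4 x hx]
        · change q.2 * q'.2 = p.2 * p'.2
          rw [a5, b5]
      inv_mem' := by
        rintro q ⟨p, hp, a1, a2, a3, a4, a5⟩
        have hfix' : ∀ x ∈ Z, (p⁻¹).1 x = x := fun x hx => by
          change p.1.symm x = x
          rw [Equiv.symm_apply_eq, a1 x hx]
        refine ⟨p⁻¹, G.K.inv_mem hp, hfix', fun x hx => ?_, fun x hx => ?_, fun x hx => ?_, ?_⟩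
        · change p.2.symm x = x
          rw [Equiv.symm_apply_eq, a2 x hx]
        · change q.1.symm x = p.1.symm x
          have h1 : (p⁻¹).1 x ∈ P := hP1 _ (G.K.inv_mem hp) hfix' x hx
          rw [Equiv.symm_apply_eq]
          have h2 := a3 _ h1
          have h3 : p.1 ((p⁻¹).1 x) = x := p.1.apply_symm_apply x
          rw [h3] at h2
          exact h2.symm
        · change q.1.symm x = x
          rw [Equiv.symm_apply_eq, a4 x hx]
        · change q.2⁻¹ = p.2⁻¹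
          rw [a5] }
  have hK2 : ∀ q, q ∈ K2 ↔ ∃ p ∈ G.K, (∀ x ∈ Z, p.1 x = x) ∧ (∀ j ∈ F, p.2 j = j) ∧
        (∀ x ∈ P, q.1 x = p.1 x) ∧ (∀ x, x ∉ P → q.1 x = x) ∧ q.2 = p.2 := fun _ => Iff.rfl
  -- restrictions of automorphisms to the piece
  have hres : ∀ p ∈ G.K, (∀ x ∈ Z, p.1 x = x) → ∃ f : Equiv.Perm ℕ, IsoH f M M ∧
      (∀ x ∈ P, f x = p.1 x) ∧ ∀ x, x ∉ P → f x = x := by
    intro p hp hfix
    have hFI : FIh p.1 M (zl π) P M (zl π) P :=
      isoH_fih (hG p hp) (fun z hz => hfix z (hZ (zl_sub_dl π hz))) (hP p hp hfix)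
    obtain ⟨f, f1, f2, f3⟩ := hGLA n M hM π hV p.1 hFI
    exact ⟨f, f1, f2, f3⟩
  have hiso : ∀ q ∈ K2, IsoH q.1 M M ∧ ∀ z, z ∉ P → q.1 z = z := by
    intro q hq
    obtain ⟨p, hp, a1, a2, a3, a4, a5⟩ := (hK2 q).1 hq
    obtain ⟨f, f1, f2, f3⟩ := hres p hp a1
    have : q.1 = f := by
      ext x
      by_cases hx : x ∈ P
      · rw [a3 x hx, f2 x hx]
      · rw [a4 x hx, f3 x hx]
    rw [this]
    exact ⟨f1, f3⟩
  -- two points whose supports have only one new element in common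
  have htwo : ∀ j, j ∉ F → ∃ u1 ∈ P, ∃ u2 ∈ P, j ∈ G.sup (u1 :: Z) ∧ j ∈ G.sup (u2 :: Z) ∧
      ∀ m, m ∈ G.sup (u1 :: Z) → m ∈ G.sup (u2 :: Z) → m ≠ j → m ∈ F := by
    intro j hj
    obtain ⟨i, hi, hiF⟩ := Finset.not_subset.1 hv
    obtain ⟨g1, hg1, hfix1⟩ := G.surj Z (Equiv.swap i j) (by
      intro m hm
      refine Equiv.swap_apply_of_ne_of_ne ?_ ?_
      · rintro rfl
        exact hiF hm
      · rintro rfl
        exact hj hm)
    have hj1 : j ∈ G.sup (g1 v :: Z) := by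
      have h1 := (heqv _ hg1 hfix1 v i).1 hi
      simp only [Equiv.swap_apply_left] at h1
      exact h1
    have hu1 : g1 v ∈ P := hP1 _ hg1 hfix1 v hvP
    obtain ⟨σ, s1, s2⟩ := exists_off (insert j F) ((G.sup (g1 v :: Z)) \ insert j F)
      (G.sup (g1 v :: Z)) Finset.disjoint_sdiff
    obtain ⟨g2, hg2, hfix2⟩ := G.surj Z σ fun m hm => s1 m (Finset.mem_insert_of_mem hm)
    refine ⟨g1 v, hu1, g2 (g1 v), hP1 _ hg2 hfix2 _ hu1, hj1, ?_, ?_⟩
    · have h1 := (heqv _ hg2 hfix2 (g1 v) j).1 hj1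
      simp only at h1
      rwa [s1 j (Finset.mem_insert_self _ _)] at h1
    · intro m hm1 hm2 hmj
      by_contra hmF
      have h1 : σ.symm m ∈ G.sup (g1 v :: Z) := by
        rw [heqv _ hg2 hfix2 (g1 v) (σ.symm m)]
        simpa using hm2
      by_cases h2 : σ.symm m ∈ insert j F
      · have h3 := s1 _ h2
        rw [Equiv.apply_symm_apply] at h3
        rw [← h3] at h2
        rcases Finset.mem_insert.1 h2 with h4 | h4
        · exact hmj h4
        · exact hmF h4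
      · have h3 := s2 _ (Finset.mem_sdiff.2 ⟨h1, h2⟩)
        rw [Equiv.apply_symm_apply] at h3
        exact h3 hm1
  -- the second coordinate is determined by the first
  have hdet : ∀ j, j ∉ F → ∀ u1 ∈ P, ∀ u2 ∈ P, j ∈ G.sup (u1 :: Z) → j ∈ G.sup (u2 :: Z) →
      (∀ m, m ∈ G.sup (u1 :: Z) → m ∈ G.sup (u2 :: Z) → m ≠ j → m ∈ F) →
      ∀ q ∈ K2, ∀ q' ∈ K2, q.1 u1 = q'.1 u1 → q.1 u2 = q'.1 u2 → q.2 j = q'.2 j := by
    intro j hj u1 hu1 u2 hu2 hj1 hj2 hm q hq q' hq' e1 e2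
    obtain ⟨p, hp, a1, a2, a3, a4, a5⟩ := (hK2 q).1 hq
    obtain ⟨p', hp', b1, b2, b3, b4, b5⟩ := (hK2 q').1 hq'
    rw [a3 u1 hu1, b3 u1 hu1] at e1
    rw [a3 u2 hu2, b3 u2 hu2] at e2
    rw [a5, b5]
    have c1 : p'.2.symm (p.2 j) ∈ G.sup (u1 :: Z) := by
      rw [heqv p' hp' b1 u1, Equiv.apply_symm_apply, ← e1]
      exact (heqv p hp a1 u1 j).1 hj1
    have c2 : p'.2.symm (p.2 j) ∈ G.sup (u2 :: Z) := by
      rw [heqv p' hp' b1 u2, Equiv.apply_symm_apply, ← e2]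
      exact (heqv p hp a1 u2 j).1 hj2
    by_cases h1 : p'.2.symm (p.2 j) = j
    · rw [Equiv.symm_apply_eq] at h1
      exact h1
    · exfalso
      have h2 := hm _ c1 c2 h1
      have h3 := b2 _ h2
      rw [Equiv.apply_symm_apply] at h3
      have h4 := a2 _ h2
      exact h1 (p.2.injective (h4.trans h3.symm))
  obtain ⟨H, H1, H2, φ, H3, H4, H5⟩ := Pool.Agent.CW.sdiv_of_pairs3 K2 F
    {g | IsoH g M M ∧ ∀ z, z ∉ P → g z = z} (by
      intro g hg
      refine ⟨closed_isoH M g fun E => ?_, fun z hz => ?_⟩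
      · obtain ⟨p, hp, h⟩ := hg E
        exact ⟨p.1, (hiso p hp).1, h⟩
      · obtain ⟨p, hp, h⟩ := hg {z}
        rw [← h z (by simp)]
        exact (hiso p hp).2 z hz) (by
      intro q hq j hj
      obtain ⟨p, hp, a1, a2, a3, a4, a5⟩ := (hK2 q).1 hq
      rw [a5]
      exact a2 j hj) (by
      intro σ hσ
      obtain ⟨g, hg, hfix⟩ := G.surj Z σ hσ
      obtain ⟨f, -, f2, f3⟩ := hres _ hg hfix
      exact ⟨f, (hK2 _).2 ⟨(g, σ), hg, hfix, hσ, f2, f3, rfl⟩⟩) (by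
      intro j
      by_cases hj : j ∈ F
      · refine ⟨∅, fun q hq q' hq' _ => ?_⟩
        obtain ⟨p, hp, a1, a2, a3, a4, a5⟩ := (hK2 q).1 hq
        obtain ⟨p', hp', b1, b2, b3, b4, b5⟩ := (hK2 q').1 hq'
        rw [a5, b5, a2 j hj, b2 j hj]
      · obtain ⟨u1, hu1, u2, hu2, hj1, hj2, hm⟩ := htwo j hj
        exact ⟨{u1, u2}, fun q hq q' hq' he =>
          hdet j hj u1 hu1 u2 hu2 hj1 hj2 hm q hq q' hq' (he u1 (by simp)) (he u2 (by simp))⟩)
  refine ⟨H, H1, H2, φ, H3, H4, ?_⟩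
  intro h B hB hh
  obtain ⟨W, hW⟩ := hB
  refine H5 h (G.sup (W ++ Z)) fun j hj => ?_
  have hjF : j ∉ F := fun h1 => hj (G.mono _ _ (List.subset_append_right _ _) h1)
  obtain ⟨u1, hu1, u2, hu2, hj1, hj2, hm⟩ := htwo j hjF
  have hout : ∀ u, j ∈ G.sup (u :: Z) → (h : Equiv.Perm ℕ) u = u := by
    intro u hju
    refine hh u fun huB => hj (hW (W ++ Z) (List.subset_append_left _ _) u huB ?_)
    refine G.mono _ _ ?_ hju
    intro a ha
    rcases List.mem_cons.1 ha with rfl | ha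
    · exact List.mem_cons_self
    · exact List.mem_cons_of_mem _ (List.mem_append_right _ ha)
  refine ⟨{u1, u2}, fun q hq he => ?_⟩
  exact hdet j hjF u1 hu1 u2 hu2 hj1 hj2 hm q hq 1 K2.one_mem
    ((he u1 (by simp)).trans (hout u1 hj1)) ((he u2 (by simp)).trans (hout u2 hj2))

end Pool.Agent.CR
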