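import Pool.Agent.H71.CR.Stmt

/-!
# GSW: the swap of two atoms
-/

set_option autoImplicit false

open Set Pool.Agent.TK Pool.Agent.H71.VK

namespace Pool.Agent.CR

private lemma h41s_zip_self {ζ : List ℕ} {z : ℕ × ℕ} (hz : z ∈ dg ζ) : z ∈ ζ.zip ζ := by
  rw [← dg_eq_zip]
  exact hz

theorem pf_GSW {C : Type} {c0 : C} : T_GSW C c0 := by
  classical
  intro n M hM π S F v v' R R' hV hV' hv hv' hne hsw g hg
  obtain ⟨m1, m2, -⟩ := hM
  set D := st (bn M) ((S, F, ([v], R), true) :: π) with hD
  set D' := st (bn M) ((S, F, ([v'], R'), true) :: π) with hD'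
  have hb : BijOn g D D' := hg.2.1
  obtain ⟨hVπ, hS, -, -, -⟩ := vd_cons.1 hV
  obtain ⟨-, -, -, hvU', -⟩ := vd_cons.1 hV'
  simp only at hS hvU'
  have hdis : ∀ x ∈ D, x ∉ D' := vc_disj hv hv' R R' (hvU' v' (by simp)) hne
  have hDP : ∀ x ∈ D, x ∈ st (bn M) π := fun x hx => (st_sub' _ _ _ _ _ x hx).1
  have hDP' : ∀ x ∈ D', x ∈ st (bn M) π := fun x hx => (st_sub' _ _ _ _ _ x hx).1
  -- the inverse of `g`
  let g' : ℕ → ℕ := Function.invFunOn g D
  have g1 : ∀ y ∈ D', g' y ∈ D ∧ g (g' y) = y := fun y hy => by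
    have h1 : ∃ a ∈ D, g a = y := hb.surjOn hy
    exact ⟨Function.invFunOn_mem h1, Function.invFunOn_eq h1⟩
  have g2 : ∀ x ∈ D, g' (g x) = x := fun x hx => by
    have h1 := g1 (g x) (hb.mapsTo hx)
    exact hb.injOn h1.1 hx h1.2
  let F0 : ℕ → ℕ := fun x => if x ∈ D then g x else if x ∈ D' then g' x else x
  have a1 : ∀ x ∈ D, F0 x = g x := fun x hx => if_pos hx
  have a2 : ∀ x ∈ D', F0 x = g' x := fun x hx => by
    have h1 : x ∉ D := fun h => hdis x h hx
    change (if x ∈ D then g x else if x ∈ D' then g' x else x) = _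
    rw [if_neg h1, if_pos hx]
  have a3 : ∀ x, x ∉ D → x ∉ D' → F0 x = x := fun x h1 h2 => by
    change (if x ∈ D then g x else if x ∈ D' then g' x else x) = _
    rw [if_neg h1, if_neg h2]
  have a4 : ∀ x, F0 (F0 x) = x := by
    intro x
    by_cases h1 : x ∈ D
    · rw [a1 x h1, a2 _ (hb.mapsTo h1), g2 x h1]
    · by_cases h2 : x ∈ D'
      · rw [a2 x h2, a1 _ (g1 x h2).1, (g1 x h2).2]
      · rw [a3 x h1 h2, a3 x h1 h2]
  let f : Equiv.Perm ℕ := ⟨F0, F0, a4, a4⟩
  have f1 : ∀ x ∈ D, f x = g x := a1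
  have f2 : ∀ x ∈ D', f x = g' x := a2
  have f3 : ∀ x, x ∉ D → x ∉ D' → f x = x := a3
  have f4 : ∀ x, f (f x) = x := a4
  have f5 : ∀ x ∈ D, f x ∈ D' := fun x hx => by
    rw [f1 x hx]
    exact hb.mapsTo hx
  have f6 : ∀ x ∈ D', f x ∈ D := fun x hx => by
    rw [f2 x hx]
    exact (g1 x hx).1
  -- positions along `g`
  have hpos : ∀ x : List ℕ, (∀ a ∈ x, a ∈ D) →
      Pl (bn M) (bn M) (dg (S ++ zl π) ++ x.map fun z => (z, g z)) := by
    intro x hx q hq
    refine congrArg Prod.snd ((hg.2.2 x hx).2.2 q fun z hz => ?_)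
    rcases List.mem_append.1 (hq z hz) with h | h
    · exact List.mem_append_left _ (h41s_zip_self h)
    · exact List.mem_append_right _ h
  refine ⟨f, ⟨fun a b => ?_, fun l => Prod.ext ?_ ?_⟩, f4, f1, ?_, f3⟩
  · rw [m1, m1]
    congr 1
    rw [ne_eq, ne_eq, f.injective.eq_iff]
  · by_cases hl : l.length = 1
    · obtain ⟨a, rfl⟩ := List.length_eq_one_iff.1 hl
      change (M.2 [a]).1 = (M.2 [f a]).1
      have hpt : ∀ b ∈ D, (M.2 [b]).1 = (M.2 [f b]).1 := by
        intro b hb'
        rw [f1 b hb']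
        have h1 := (hg.2.2 [b] (by simpa using hb')).2.2 [(b, g b)] (by simp)
        exact congrArg Prod.fst h1
      by_cases ha : a ∈ D
      · exact hpt a ha
      · by_cases ha' : a ∈ D'
        · have h1 := hpt (f a) (f6 a ha')
          rw [f4] at h1
          exact h1.symm
        · rw [f3 a ha ha']
    · rw [m2 l hl, m2 (l.map f) (by rw [List.length_map]; exact hl)]
  · -- the labels
    let x := l.filter fun a => decide (a ∈ D)
    let y := l.filter fun a => decide (a ∈ D')
    let E := l.filter fun a => decide (a ∈ Ur (st (bn M) π) (S ++ zl π) ∧ a ∉ D ∧ a ∉ D')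
    let O := l.filter fun a => decide (a ∉ st (bn M) π)
    have hx : ∀ a ∈ x, a ∈ D := fun a ha => of_decide_eq_true (List.mem_filter.1 ha).2
    have hy : ∀ a ∈ y, a ∈ D' := fun a ha => of_decide_eq_true (List.mem_filter.1 ha).2
    have h1 := hpos x hx
    have h2 : Pl (bn M) (bn M) (dg (S ++ zl π) ++ y.map fun z => (z, g' z)) := by
      refine (hpos (y.map g') ?_).symm' ?_
      · intro a ha
        obtain ⟨b, hb', rfl⟩ := List.mem_map.1 ha
        exact (g1 b (hy b hb')).1
      · intro z hz
        rcases List.mem_append.1 hz with h | h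
        · have h5 := mem_dg.1 h
          refine List.mem_append_left _ (mem_dg.2 ⟨h5.1.symm, ?_⟩)
          change z.2 ∈ _
          rw [← h5.1]
          exact h5.2
        · obtain ⟨b, hb', rfl⟩ := List.mem_map.1 h
          refine List.mem_append_right _ (List.mem_map.2 ⟨g' b, List.mem_map_of_mem hb', ?_⟩)
          exact Prod.ext rfl (g1 b (hy b hb')).2
    have h3 := hsw (x.map fun z => (z, g z)) (y.map fun z => (z, g' z)) (fun z hz => by
      obtain ⟨a, ha, rfl⟩ := List.mem_map.1 hz
      exact ⟨hx a ha, hb.mapsTo (hx a ha)⟩) (fun z hz => by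
      obtain ⟨a, ha, rfl⟩ := List.mem_map.1 hz
      exact ⟨hy a ha, (g1 a (hy a ha)).1⟩) h1 h2 E fun a ha =>
        of_decide_eq_true (List.mem_filter.1 ha).2
    have h4 := ctl hVπ (p := dg (E ++ S) ++
        ((x.map fun z => (z, g z)) ++ (y.map fun z => (z, g' z)))) (by
      intro z hz
      rcases List.mem_append.1 hz with h | h
      · have h5 := mem_dg.1 h
        have h6 : z.1 ∈ st (bn M) π := by
          rcases List.mem_append.1 h5.2 with h7 | h7
          · exact (of_decide_eq_true (List.mem_filter.1 h7).2 :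
              z.1 ∈ Ur (st (bn M) π) (S ++ zl π) ∧ z.1 ∉ D ∧ z.1 ∉ D').1.1
          · exact hS _ h7
        exact ⟨h6, h5.1 ▸ h6⟩
      · rcases List.mem_append.1 h with h5 | h5
        · obtain ⟨a, ha, rfl⟩ := List.mem_map.1 h5
          exact ⟨hDP _ (hx a ha), hDP' _ (hb.mapsTo (hx a ha))⟩
        · obtain ⟨a, ha, rfl⟩ := List.mem_map.1 h5
          exact ⟨hDP' _ (hy a ha), hDP _ (g1 a (hy a ha)).1⟩) (h3.mono (by
      intro z hz
      simp only [List.mem_append, mem_dg] at hz ⊢
      tauto)) (D := O) fun a ha => of_decide_eq_true (List.mem_filter.1 ha).2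
    have h5 := h4 (l.map fun a => (a, f a)) (by
      intro z hz
      obtain ⟨a, ha, rfl⟩ := List.mem_map.1 hz
      by_cases haD : a ∈ D
      · refine List.mem_append_right _ (List.mem_append_right _ (List.mem_append_right _
          (List.mem_append_left _ ?_)))
        rw [f1 a haD]
        exact List.mem_map_of_mem (f := fun z => (z, g z))
          (List.mem_filter.2 ⟨ha, decide_eq_true haD⟩)
      · by_cases haD' : a ∈ D'
        · refine List.mem_append_right _ (List.mem_append_right _ (List.mem_append_right _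
            (List.mem_append_right _ ?_)))
          rw [f2 a haD']
          exact List.mem_map_of_mem (f := fun z => (z, g' z))
            (List.mem_filter.2 ⟨ha, decide_eq_true haD'⟩)
        · rw [f3 a haD haD']
          by_cases haP : a ∈ st (bn M) π
          · refine List.mem_append_right _ (List.mem_append_right _ (List.mem_append_left _
              (mem_dg.2 ⟨rfl, ?_⟩)))
            change a ∈ E ++ S
            by_cases haS : a ∈ S
            · exact List.mem_append_right _ haS
            · refine List.mem_append_left _ (List.mem_filter.2 ⟨ha, decide_eq_true ?_⟩)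
              refine ⟨⟨haP, fun h => ?_⟩, haD, haD'⟩
              rcases List.mem_append.1 h with h | h
              · exact haS h
              · exact zl_disj hVπ a h haP
          · exact List.mem_append_left _ (mem_dg.2 ⟨rfl,
              List.mem_filter.2 ⟨ha, decide_eq_true haP⟩⟩))
    rw [List.map_map, List.map_map] at h5
    have e1 : l.map (Prod.fst ∘ fun a => (a, f a)) = l := by
      conv_rhs => rw [← List.map_id l]
      rfl
    rw [e1] at h5
    exact h5
  · apply Subset.antisymm
    · rintro _ ⟨x, hx, rfl⟩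
      exact f5 x hx
    · intro y hy
      exact ⟨f y, f6 y hy, f4 y⟩

end Pool.Agent.CR
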