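import Pool.Agent.H88.CR.Targets

/-!
Row SRF of cvr_modules: closed subspaces of reflexive spaces are reflexive.
-/

set_option autoImplicit false

namespace Pool.Agent.H41.CR

open Filter Topology Set Pool.Agent.H85.WMP Pool.Agent.H88.WR Pool.Agent.H88.CR

theorem pf_SRF (𝕜 : Type) [RCLike 𝕜] : T_SRF 𝕜 := by
  intro E _ _ Y hE hY Φ
  let R : StrongDual 𝕜 E →L[𝕜] StrongDual 𝕜 Y :=
    (ContinuousLinearMap.compL 𝕜 Y E 𝕜).flip Y.subtypeL
  have hR : ∀ f : StrongDual 𝕜 E, R f = f.comp Y.subtypeL := fun f => rfl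
  obtain ⟨x, hx⟩ := hE (Φ.comp R)
  have hval : ∀ f : StrongDual 𝕜 E, f x = Φ (f.comp Y.subtypeL) := by
    intro f
    have h1 := congrArg (fun Ψ : StrongDual 𝕜 (StrongDual 𝕜 E) => Ψ f) hx
    simpa only [NormedSpace.dual_def, ContinuousLinearMap.comp_apply, hR] using h1
  have hxY : x ∈ Y := by
    by_contra h
    have : IsClosed (Y : Set E) := hY
    have hne : (Y.mkQ x : E ⧸ Y) ≠ 0 := by
      intro h0
      exact h ((Submodule.Quotient.mk_eq_zero Y).mp h0)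
    obtain ⟨g, -, hg⟩ := exists_dual_vector 𝕜 (Y.mkQ x : E ⧸ Y) (norm_ne_zero_iff.mpr hne)
    let f : StrongDual 𝕜 E := g.comp Y.mkQL
    have hf0 : f.comp Y.subtypeL = 0 := by
      ext y
      change g (Y.mkQ (y : E)) = 0
      have : Y.mkQ (y : E) = 0 := (Submodule.Quotient.mk_eq_zero Y).mpr y.2
      rw [this, map_zero]
    have hfx : f x = 0 := by rw [hval f, hf0, map_zero]
    have hfx' : f x = ((‖(Y.mkQ x : E ⧸ Y)‖ : ℝ) : 𝕜) := hg
    rw [hfx] at hfx'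
    have : (‖(Y.mkQ x : E ⧸ Y)‖ : ℝ) = 0 := by exact_mod_cast hfx'.symm
    exact hne (norm_eq_zero.mp this)
  refine ⟨⟨x, hxY⟩, ?_⟩
  ext g
  obtain ⟨f, hf, -⟩ := exists_extension_norm_eq Y g
  rw [NormedSpace.dual_def]
  have h1 : f.comp Y.subtypeL = g := by
    ext y
    exact hf y
  rw [← h1, ← hval f]
  rfl

end Pool.Agent.H41.CR
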